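import Pool.Agent.helper52.IR.Spec

/-!
# MP_07c750, project IR, row BDS: the bad set
-/

open scoped MatrixGroups ContDiff Topology UpperHalfPlane ComplexConjugate
open UpperHalfPlane MeasureTheory Filter Set

set_option autoImplicit false

namespace Pool.Agent.IR

open Pool.Agent.RS
open Pool.Agent.MS (bq)
open Pool.Agent.HV (FW)

lemma BDS_ent (δ τ x : ℝ) : (lM δ * aM τ * nM x).1 0 0 = Real.exp (τ / 2) ∧ (lM δ * aM τ * nM x).1 0 1 = Real.exp (τ / 2) * x ∧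
    (lM δ * aM τ * nM x).1 1 0 = δ * Real.exp (τ / 2) ∧ (lM δ * aM τ * nM x).1 1 1 = δ * Real.exp (τ / 2) * x + Real.exp (-(τ / 2)) := by
  refine ⟨?_, ?_, ?_, ?_⟩ <;>
    simp [lM, aM, nM, Matrix.mul_apply, Fin.sum_univ_two, Matrix.SpecialLinearGroup.coe_mul]

lemma BDS_bq (a δ τ x v : ℝ) (ha : 0 < a) (ha1 : a ≤ 1) (hδ0 : 0 ≤ δ) (hδ : δ ≤ a / 2 * v) (hv0 : 0 < v) (hv : v ≤ 1)
    (hτ : |τ| ≤ a / 8) (hx : |x| ≤ a / 8) : bq a a (a * v) (lM δ * aM τ * nM x) := by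
  obtain ⟨e1, e2, e3, e4⟩ := BDS_ent δ τ x
  have hτ2 : |τ / 2| ≤ a / 16 := by rw [abs_div, abs_two]; linarith
  have h1 : |Real.exp (τ / 2) - 1| ≤ a / 8 :=
    (Real.abs_exp_sub_one_le (by linarith)).trans (by linarith)
  have hτ3 : |-(τ / 2)| ≤ a / 16 := by rw [abs_neg]; exact hτ2
  have h2 : |Real.exp (-(τ / 2)) - 1| ≤ a / 8 :=
    (Real.abs_exp_sub_one_le (by linarith)).trans (by linarith)
  have hE : Real.exp (τ / 2) ≤ 2 := by have := (abs_le.1 h1).2; linarith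
  have hE0 := Real.exp_pos (τ / 2)
  have h3 : |Real.exp (τ / 2) * x| ≤ a / 4 := by
    rw [abs_mul, abs_of_pos hE0]
    have := mul_le_mul hE hx (abs_nonneg x) (by norm_num)
    linarith
  have hδ1 : δ ≤ 1 / 2 := by nlinarith
  have h4 : |δ * Real.exp (τ / 2) * x| ≤ a / 8 := by
    rw [mul_assoc, abs_mul, abs_of_nonneg hδ0]
    have := mul_le_mul hδ1 h3 (abs_nonneg _) (by norm_num)
    linarith
  refine ⟨?_, ?_, ?_, ?_⟩
  · rw [e1]; linarith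
  · rw [e4]
    have e : δ * Real.exp (τ / 2) * x + Real.exp (-(τ / 2)) - 1 = δ * Real.exp (τ / 2) * x + (Real.exp (-(τ / 2)) - 1) := by ring
    rw [e]
    exact (abs_add_le _ _).trans (by linarith)
  · rw [e2]; linarith
  · rw [e3, abs_of_nonneg (by positivity)]
    have := mul_le_mul hδ hE hE0.le (by positivity)
    linarith

lemma BDS_num (C1 C2 Λ2 K nt np ns y0 y1 y2 p s1 θ0 R L : ℝ) (hC1 : 1 ≤ C1) (hC2 : 0 < C2) (hΛ : 1 ≤ Λ2) (hK : 1 ≤ K)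
    (hnt : 0 ≤ nt) (hnp : 0 ≤ np) (hns : 0 ≤ ns) (hy0 : 0 ≤ y0) (hy1 : 0 ≤ y1) (hy2 : 0 ≤ y2) (hθ : 0 < θ0) (hR : 1 ≤ R)
    (hL0 : 0 ≤ L) (hL : L ≤ K * Real.exp p) :
    C1 * nt * (C1 * nt * (C1 * Λ2 * np) ^ 2 * (y0 * y1) + C2 * (y0 * Real.sqrt (y0 * y2 * (L / θ0) *
      ((C1 * nt) ^ 2 * (C1 * Λ2 * np) ^ 2 * L / (θ0 * Real.exp (-s1) * R) + C1 * nt * (C1 * ns) * (C1 * Λ2 * np) ^ 3)))) ≤
    C1 * (C1 ^ 3 * Λ2 ^ 2 + C2 * (C1 ^ 5 * Λ2 ^ 3 * K ^ 2)) * EB nt np ns y0 y1 y2 p s1 θ0 R := by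
  have hR0 : 0 < R := by linarith
  have hE := Real.exp_pos p
  have hEs := Real.exp_pos s1
  have c1 : 1 ≤ C1 ^ 5 * Λ2 ^ 3 := one_le_mul_of_one_le_of_one_le (one_le_pow₀ hC1) (one_le_pow₀ hΛ)
  have c2 : 1 ≤ C1 ^ 5 * Λ2 ^ 3 * K ^ 2 := one_le_mul_of_one_le_of_one_le c1 (one_le_pow₀ hK)
  have eps : Real.exp (-s1) = (Real.exp s1)⁻¹ := Real.exp_neg s1
  have epp : Real.exp (p + s1) = Real.exp p * Real.exp s1 := Real.exp_add p s1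
  set A := nt ^ 2 * np ^ 2 * Real.exp (p + s1) / (θ0 * R) with hA
  set B := nt * ns * np ^ 3 with hB
  have hA0 : 0 ≤ A := by positivity
  have hB0 : 0 ≤ B := by positivity
  have i1 : (C1 * nt) ^ 2 * (C1 * Λ2 * np) ^ 2 * L / (θ0 * Real.exp (-s1) * R) ≤ C1 ^ 5 * Λ2 ^ 3 * K * A := by
    have e1 : (C1 * nt) ^ 2 * (C1 * Λ2 * np) ^ 2 * L / (θ0 * Real.exp (-s1) * R) =
        C1 ^ 4 * Λ2 ^ 2 * (nt ^ 2 * np ^ 2 * Real.exp s1 / (θ0 * R)) * L := by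
      rw [eps]; field_simp
    have e2 : C1 ^ 5 * Λ2 ^ 3 * K * A = C1 ^ 5 * Λ2 ^ 3 * (nt ^ 2 * np ^ 2 * Real.exp s1 / (θ0 * R)) * (K * Real.exp p) := by
      rw [hA, epp]; field_simp
    rw [e1, e2]
    have hX : 0 ≤ nt ^ 2 * np ^ 2 * Real.exp s1 / (θ0 * R) := by positivity
    have hc : C1 ^ 4 * Λ2 ^ 2 ≤ C1 ^ 5 * Λ2 ^ 3 := by
      apply mul_le_mul (pow_le_pow_right₀ hC1 (by norm_num)) (pow_le_pow_right₀ hΛ (by norm_num)) (by positivity) (by positivity)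
    exact mul_le_mul (mul_le_mul_of_nonneg_right hc hX) hL hL0 (by positivity)
  have i2 : C1 * nt * (C1 * ns) * (C1 * Λ2 * np) ^ 3 ≤ C1 ^ 5 * Λ2 ^ 3 * K * B := by
    have e1 : C1 * nt * (C1 * ns) * (C1 * Λ2 * np) ^ 3 = C1 ^ 5 * Λ2 ^ 3 * B := by rw [hB]; ring
    rw [e1]
    have : C1 ^ 5 * Λ2 ^ 3 * B * 1 ≤ C1 ^ 5 * Λ2 ^ 3 * B * K := mul_le_mul_of_nonneg_left hK (by positivity)
    linarith
  have i3 : y0 * y2 * (L / θ0) * ((C1 * nt) ^ 2 * (C1 * Λ2 * np) ^ 2 * L / (θ0 * Real.exp (-s1) * R) + C1 * nt * (C1 * ns) * (C1 * Λ2 * np) ^ 3) ≤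
      C1 ^ 5 * Λ2 ^ 3 * K ^ 2 * (y0 * y2 * (Real.exp p / θ0) * (A + B)) := by
    have j1 : y0 * y2 * (L / θ0) ≤ y0 * y2 * (K * Real.exp p / θ0) := by
      apply mul_le_mul_of_nonneg_left _ (by positivity)
      exact div_le_div_of_nonneg_right hL hθ.le
    have j2 := mul_le_mul j1 (add_le_add i1 i2) (by positivity) (by positivity)
    refine j2.trans (le_of_eq ?_)
    ring
  have hG0 : 0 ≤ y0 * y2 * (Real.exp p / θ0) * (A + B) := by positivity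
  have i4 : Real.sqrt (y0 * y2 * (L / θ0) * ((C1 * nt) ^ 2 * (C1 * Λ2 * np) ^ 2 * L / (θ0 * Real.exp (-s1) * R) + C1 * nt * (C1 * ns) * (C1 * Λ2 * np) ^ 3)) ≤
      C1 ^ 5 * Λ2 ^ 3 * K ^ 2 * Real.sqrt (y0 * y2 * (Real.exp p / θ0) * (A + B)) := by
    refine (Real.sqrt_le_sqrt i3).trans ?_
    rw [Real.sqrt_mul (by positivity)]
    apply mul_le_mul_of_nonneg_right _ (Real.sqrt_nonneg _)
    rw [Real.sqrt_le_left (by positivity)]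
    nlinarith
  set Sq := Real.sqrt (y0 * y2 * (Real.exp p / θ0) * (A + B)) with hSq
  have hS0 : 0 ≤ Sq := Real.sqrt_nonneg _
  have hEB : EB nt np ns y0 y1 y2 p s1 θ0 R = nt * (nt * np ^ 2 * (y0 * y1) + y0 * Sq) := rfl
  rw [hEB]
  have i5 : C2 * (y0 * Real.sqrt (y0 * y2 * (L / θ0) * ((C1 * nt) ^ 2 * (C1 * Λ2 * np) ^ 2 * L / (θ0 * Real.exp (-s1) * R) + C1 * nt * (C1 * ns) * (C1 * Λ2 * np) ^ 3))) ≤
      C2 * (y0 * (C1 ^ 5 * Λ2 ^ 3 * K ^ 2 * Sq)) :=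
    mul_le_mul_of_nonneg_left (mul_le_mul_of_nonneg_left i4 hy0) hC2.le
  have i6 : C1 * nt * (C1 * Λ2 * np) ^ 2 * (y0 * y1) = C1 ^ 3 * Λ2 ^ 2 * (nt * np ^ 2 * (y0 * y1)) := by ring
  rw [i6]
  have hP : 0 ≤ nt * np ^ 2 * (y0 * y1) := by positivity
  have hQ : 0 ≤ y0 * Sq := by positivity
  have hc3 : 0 ≤ C1 ^ 3 * Λ2 ^ 2 := by positivity
  have hc5 : 0 ≤ C2 * (C1 ^ 5 * Λ2 ^ 3 * K ^ 2) := by positivity
  have i7 : C1 ^ 3 * Λ2 ^ 2 * (nt * np ^ 2 * (y0 * y1)) + C2 * (y0 * (C1 ^ 5 * Λ2 ^ 3 * K ^ 2 * Sq)) ≤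
      (C1 ^ 3 * Λ2 ^ 2 + C2 * (C1 ^ 5 * Λ2 ^ 3 * K ^ 2)) * (nt * np ^ 2 * (y0 * y1) + y0 * Sq) := by
    have t1 : 0 ≤ C1 ^ 3 * Λ2 ^ 2 * (y0 * Sq) := mul_nonneg hc3 hQ
    have t2 : 0 ≤ C2 * (C1 ^ 5 * Λ2 ^ 3 * K ^ 2) * (nt * np ^ 2 * (y0 * y1)) := mul_nonneg hc5 hP
    nlinarith
  have hC1nt : 0 ≤ C1 * nt := by positivity
  calc _ ≤ C1 * nt * (C1 ^ 3 * Λ2 ^ 2 * (nt * np ^ 2 * (y0 * y1)) + C2 * (y0 * (C1 ^ 5 * Λ2 ^ 3 * K ^ 2 * Sq))) :=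
        mul_le_mul_of_nonneg_left (by linarith) hC1nt
    _ ≤ C1 * nt * ((C1 ^ 3 * Λ2 ^ 2 + C2 * (C1 ^ 5 * Λ2 ^ 3 * K ^ 2)) * (nt * np ^ 2 * (y0 * y1) + y0 * Sq)) :=
        mul_le_mul_of_nonneg_left i7 hC1nt
    _ = _ := by ring

lemma BDS_vol (Y : Set ℝ) (v r r' y : ℝ) (hr : r' ≤ r) (h : volume.real (Y ∩ Icc (v - r) (v + r)) ≤ y) :
    volume.real (Y ∩ Icc (v - r') (v + r')) ≤ y := by
  refine (measureReal_mono ?_ ?_).trans h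
  · exact inter_subset_inter_right _ (Icc_subset_Icc (by linarith) (by linarith))
  · exact ((measure_mono inter_subset_right).trans_lt measure_Icc_lt_top).ne

theorem BDS_proof (hNET : NET_stmt) (hCNT : CNT_stmt) (hALM : ALM_stmt) (hGLC : RS.GLC_stmt) : BDS_stmt := by
  classical
  intro Γ hΓ a Λ2 ha ha1 hΛ
  obtain ⟨Z, hZ⟩ := hNET Γ (a / 8) hΓ (by linarith)
  obtain ⟨C1, hC1, hCN⟩ := hCNT Γ hΓ
  obtain ⟨C2, hC2, hAL⟩ := hALM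
  have hlM : ∀ s t, lM (s + t) = lM s * lM t := hGLC.2.2.2.2.2.2.2.2.2.2.2.2.1
  set K := Λ2 + 2 / a + 1 with hK
  have h2a : 0 < 2 / a := by positivity
  set D := C1 * (C1 ^ 3 * Λ2 ^ 2 + C2 * (C1 ^ 5 * Λ2 ^ 3 * K ^ 2)) with hD
  have hK1 : 1 ≤ K := by rw [hK]; linarith
  have hD0 : 0 ≤ D := by positivity
  have hZ0 : (0 : ℝ) ≤ Z.card := Nat.cast_nonneg _
  refine ⟨1 + Z.card + D, by linarith, ?_⟩
  intro p s1 L ε2 θ0 R Ap At As hL hL100 hε hs hθ hθ1 hR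
  have hb : (0 : ℝ) < 16 * a := by linarith
  have hb1 : 16 * a ≤ 1 / 100 := by linarith
  have hE := Real.exp_pos (p : ℝ)
  have hE1 : 1 ≤ Real.exp (p : ℝ) := Real.one_le_exp (Nat.cast_nonneg _)
  have hLr : (100 : ℝ) ≤ L := by exact_mod_cast hL100
  have hLlow : (Λ2 + 2 / a) * Real.exp p ≤ L := by rw [hL]; exact Nat.le_ceil _
  have hLup : (L : ℝ) ≤ K * Real.exp p := by
    have h1 : (L : ℝ) < (Λ2 + 2 / a) * Real.exp p + 1 := by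
      rw [hL]; exact Nat.ceil_lt_add_one (by positivity)
    rw [hK]
    linarith
  have hL0 : (0 : ℝ) < L := by linarith
  choose S P hSTR hOCC using fun y : SL(2, ℝ) => hCN (16 * a) Λ2 ε2 p s1 Ap At As y hb hb1 hΛ hε hs
  choose Q hQc hQ using fun y : SL(2, ℝ) => hAL (S y) (P y) _ _ _ _ _ θ0 R L (hSTR y) (Real.exp_pos _)
    (Real.exp_le_one_iff.2 (by simp)) hθ hθ1 hR (by omega)
  refine ⟨Z.biUnion (fun y => (Q y).image (fun k : ℤ => y * lM (k / L))), ?_, ?_⟩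
  · have h1 : (Z.biUnion (fun y => (Q y).image (fun k : ℤ => y * lM (k / L)))).card ≤ ∑ y ∈ Z, (Q y).card :=
      Finset.card_biUnion_le.trans (Finset.sum_le_sum fun y _ => Finset.card_image_le)
    have h2 : ((Z.biUnion (fun y => (Q y).image (fun k : ℤ => y * lM (k / L)))).card : ℝ) ≤ ∑ y ∈ Z, ((Q y).card : ℝ) := by
      exact_mod_cast h1
    have h3 : ∑ y ∈ Z, ((Q y).card : ℝ) ≤ Z.card * R := by
      refine (Finset.sum_le_sum fun y _ => hQc y).trans ?_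
      rw [Finset.sum_const, nsmul_eq_mul]
    have h4 : 0 ≤ (1 + D) * R := by positivity
    calc _ ≤ Z.card * R := h2.trans h3
      _ ≤ (1 + Z.card + D) * R := by linarith
  · intro h hh
    obtain ⟨y, hyZ, γ, w, τ, x, hw, hτ, hx, hγ⟩ := hZ h
    have hk1 : ((⌊w * L⌋ : ℤ) : ℝ) ≤ w * L := Int.floor_le _
    have hk2 : w * L < (⌊w * L⌋ : ℤ) + 1 := Int.lt_floor_add_one _
    have hkL : ((⌊w * L⌋ : ℤ) : ℝ) / L ≤ w := by rw [div_le_iff₀ hL0]; exact hk1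
    have hkU : w ≤ ((⌊w * L⌋ : ℤ) + 1) / L := by rw [le_div_iff₀ hL0]; exact hk2.le
    have hwL : |w * L| ≤ L / 1600 := by
      rw [abs_mul, abs_of_pos hL0]
      have : |w| * L ≤ a / 8 * L := mul_le_mul_of_nonneg_right hw hL0.le
      have h2 : a / 8 * L ≤ 1 / 1600 * L := mul_le_mul_of_nonneg_right (by linarith) hL0.le
      linarith
    have hk16 : 16 * (|⌊w * L⌋| + 1) ≤ (L : ℤ) := by
      have h1 : |((⌊w * L⌋ : ℤ) : ℝ)| ≤ L / 1600 + 1 := by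
        have := abs_le.1 hwL
        rw [abs_le]
        constructor <;> linarith
      have h2 : (16 * (|((⌊w * L⌋ : ℤ) : ℝ)| + 1)) ≤ (L : ℝ) := by linarith
      exact_mod_cast h2
    have hkQ : ⌊w * L⌋ ∉ Q y := by
      intro hk
      apply hh
      refine ⟨y * lM ((⌊w * L⌋ : ℤ) / L), Finset.mem_biUnion.2 ⟨y, hyZ, Finset.mem_image.2 ⟨_, hk, rfl⟩⟩, γ, ?_⟩
      have e1 : (y * lM ((⌊w * L⌋ : ℤ) / L))⁻¹ * (γ : SL(2, ℝ)) * h = lM (w - (⌊w * L⌋ : ℤ) / L) * aM τ * nM x := by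
        have e2 : lM w = lM ((⌊w * L⌋ : ℤ) / L) * lM (w - (⌊w * L⌋ : ℤ) / L) := by
          rw [← hlM]; congr 1; ring
        rw [mul_assoc, hγ, e2]
        group
      rw [e1]
      have hinv : 1 / (L : ℝ) ≤ a / 2 * Real.exp (-p) := by
        rw [Real.exp_neg, div_le_iff₀ hL0]
        have h1 : 2 / a * Real.exp p ≤ L := by
          have : 0 ≤ Λ2 * Real.exp p := by positivity
          linarith
        have h2 : a / 2 * (Real.exp (p : ℝ))⁻¹ * (2 / a * Real.exp p) = 1 := by field_simp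
        rw [← h2]
        exact mul_le_mul_of_nonneg_left h1 (by positivity)
      apply BDS_bq a _ τ x _ ha (by linarith) (by linarith) _ (Real.exp_pos _) (Real.exp_le_one_iff.2 (by simp)) hτ hx
      have h3 : w - (⌊w * L⌋ : ℤ) / L ≤ 1 / L := by
        have : ((⌊w * L⌋ : ℤ) + 1) / (L : ℝ) = (⌊w * L⌋ : ℤ) / (L : ℝ) + 1 / L := by ring
        linarith
      exact h3.trans hinv
    refine ⟨y, γ, w, τ, x, S y, P y, by linarith, by linarith, by linarith, hγ, hOCC y, (hSTR y).x0, ?_⟩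
    intro κ Y y0 y1 y2 hκ1 hκ2 hYm hY h0 h1 h2
    have h2' : ∀ v : ℝ, volume.real (Y ∩ Icc (v - 4 / L) (v + 4 / L)) ≤ y2 := by
      intro v
      apply BDS_vol Y v (4 * Real.exp (-p)) (4 / L) y2 _ (h2 v)
      rw [Real.exp_neg, div_eq_mul_inv]
      apply mul_le_mul_of_nonneg_left _ (by norm_num)
      apply inv_anti₀ hE
      have : 1 * Real.exp (p : ℝ) ≤ (Λ2 + 2 / a) * Real.exp p := mul_le_mul_of_nonneg_right (by linarith) hE.le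
      linarith
    obtain ⟨w', κ', a1, a2, a3, a4, a5⟩ := hQ y ⌊w * L⌋ w κ Y y0 y1 y2 hk16 hkQ hkL hkU hκ1 hκ2 hYm hY h0 h1 h2'
    refine ⟨w', κ', a1, a2, a3, a4, a5.trans ?_⟩
    have hy0 : 0 ≤ y0 := measureReal_nonneg.trans h0
    have hy1 : 0 ≤ y1 := measureReal_nonneg.trans (h1 0)
    have hy2 : 0 ≤ y2 := measureReal_nonneg.trans (h2 0)
    have hfin := BDS_num C1 C2 Λ2 K At.card Ap.card As.card y0 y1 y2 p s1 θ0 R L hC1 hC2 hΛ hK1 (Nat.cast_nonneg _)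
      (Nat.cast_nonneg _) (Nat.cast_nonneg _) hy0 hy1 hy2 hθ hR hL0.le hLup
    refine hfin.trans ?_
    have hEB0 : 0 ≤ EB At.card Ap.card As.card y0 y1 y2 p s1 θ0 R := by
      unfold EB; positivity
    rw [← hD]
    exact mul_le_mul_of_nonneg_right (by linarith) hEB0

end Pool.Agent.IR
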